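import Pool.Agent.Helper5.ET.Defs

/-!
# T4', block C: range of the elements and number of window elements
-/

namespace Pool.Agent.Helper50.ET

open Finset Pool.Agent.Helper27.T4 Pool.Agent.Helper5.ET

/-! ## elementary facts on `cnt` and `Nj` -/

theorem cnt_mono (f : Fin 3) {i j : ℕ} (h : i ≤ j) : cnt f i ≤ cnt f j := by
  unfold cnt
  apply Finset.card_le_card
  apply Finset.filter_subset_filter
  intro y hy
  rw [Finset.mem_range] at hy ⊢
  omega

theorem av_mono {i j : ℕ} (h : i ≤ j) : av i ≤ av j := fun f => cnt_mono f h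

theorem Nj_pos (j : ℕ) : 0 < Nj j := NN_pos pr_prime _

theorem Nj_dvd {i j : ℕ} (h : i ≤ j) : Nj i ∣ Nj j := NN_dvd pr (av_mono h)

theorem Nj_mono {i j : ℕ} (h : i ≤ j) : Nj i ≤ Nj j := Nat.le_of_dvd (Nj_pos j) (Nj_dvd h)

theorem cnt_succ (f : Fin 3) (j : ℕ) : cnt f (j + 1) = cnt f j + if own j = f then 1 else 0 := by
  unfold cnt
  rw [Finset.range_add_one, Finset.filter_insert]
  split_ifs with h
  · rw [Finset.card_insert_of_notMem]
    simp
  · rfl

theorem Nj_succ (j : ℕ) : Nj (j + 1) = Nj j * pr (own j) := by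
  have h : ∀ f : Fin 3, pr f ^ cnt f (j + 1) =
      pr f ^ cnt f j * (if own j = f then pr f else 1) := by
    intro f
    rw [cnt_succ]
    split_ifs with h
    · rw [pow_succ]
    · simp
  unfold Nj NN av
  rw [Finset.prod_congr rfl (fun f _ => h f), Finset.prod_mul_distrib, Finset.prod_ite_eq]
  simp

theorem pr_ge (f : Fin 3) : 1000003 ≤ pr f := by fin_cases f <;> simp [pr]

theorem pr_le (f : Fin 3) : pr f ≤ 1000037 := by fin_cases f <;> simp [pr]

theorem Nj_succ_ge (j : ℕ) : Nj j * 1000003 ≤ Nj (j + 1) := by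
  rw [Nj_succ]
  exact Nat.mul_le_mul_left _ (pr_ge _)

theorem Nj_lt {i j : ℕ} (h : i < j) : Nj i * 1000003 ≤ Nj j :=
  le_trans (Nj_succ_ge i) (Nj_mono h)

/-! ## the schedule -/

theorem wof_mono {y z : ℕ} (h : y ≤ z) : wof y ≤ wof z := by
  unfold wof
  exact Nat.mul_le_mul_left _ (Nat.mul_le_mul (Nat.sqrt_le_sqrt h) (Nat.log_mono_right h))

theorem bb_mono : Monotone bb := by
  apply monotone_nat_of_le_succ
  intro k
  rw [bb]
  exact Nat.le_add_right _ _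

theorem bb_ge (k : ℕ) : 2 ^ 64 ≤ bb k := by
  have := bb_mono (Nat.zero_le k)
  rwa [bb] at this

theorem era_mono {y z : ℕ} (h : y ≤ z) : era y ≤ era z := by
  unfold era
  exact Nat.findGreatest_mono (fun n hn => le_trans hn h) h

theorem gap_mono {y z : ℕ} (h : y ≤ z) : gap y ≤ gap z := wof_mono (bb_mono (era_mono h))

theorem wof_ge {y : ℕ} (h : 2 ^ 64 ≤ y) : 8 ≤ wof y := by
  have h1 : 1 ≤ Nat.sqrt y := by
    rw [Nat.le_sqrt']
    omega
  have h2 : 1 ≤ Nat.log 2 y := Nat.log_pos (by norm_num) (by omega)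
  unfold wof
  have := Nat.mul_le_mul h1 h2
  omega

theorem gap_ge (y : ℕ) : 8 ≤ gap y := wof_ge (bb_ge _)

theorem tau_succ (c : ℕ) : tau (c + 1) = tau c + gap (tau c) := by rw [tau]

theorem tau_mono : StrictMono tau := by
  apply strictMono_nat_of_lt_succ
  intro c
  rw [tau_succ]
  have := gap_ge (tau c)
  omega

theorem sl_lt_se (s : ℕ) : sl s < se s := by
  unfold sl se
  exact tau_mono (by omega)

theorem se_le_sk (s : ℕ) : se s ≤ sk s := by
  unfold se sk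
  have h : s % 2 = 0 ∨ s % 2 = 1 := by omega
  rcases h with h | h
  · rw [if_pos h, h]
    exact Nat.le_add_right _ _
  · rw [if_neg (by omega), h]
    exact Nat.le_add_right _ _

theorem sk_lt (s : ℕ) : sk s < sk (s + 1) := by
  unfold sk
  have h : s % 2 = 0 ∨ s % 2 = 1 := by omega
  rcases h with h | h
  · rw [if_pos h, if_neg (by omega)]
    have h1 : (s + 1) / 2 = s / 2 := by omega
    rw [h1, tau_succ (s / 2 + 1)]
    have h2 := gap_mono (tau_mono.monotone (Nat.le_succ (s / 2)))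
    have h3 := gap_ge (tau (s / 2 + 1))
    simp only [Nat.succ_eq_add_one] at h2
    omega
  · rw [if_neg (by omega), if_pos (by omega)]
    have h1 : (s + 1) / 2 = s / 2 + 1 := by omega
    rw [h1]
    have h3 := gap_ge (tau (s / 2 + 1))
    have h4 : s / 2 + 1 + 1 = s / 2 + 2 := rfl
    rw [h4]
    omega

theorem sl_lt_sk (s : ℕ) : sl s < sk s := lt_of_lt_of_le (sl_lt_se s) (se_le_sk s)

/-! ## range -/

theorem code_lt (s : ℕ) (w : Key → ℕ) (x : Fin 3 → ℕ) : code s w x < Nj (se s) :=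
  cv_lt pr_prime pr_inj _ _

/-- all elements of the state `s` lie in `[Nj (sk s), Nj (sk (s+1)))` -/
theorem AA_range (s : ℕ) (w : Key → ℕ) (a : ℕ) (ha : a ∈ AA s w) :
    Nj (sk s) ≤ a ∧ a < Nj (sk (s + 1)) := by
  unfold AA at ha
  rw [Finset.mem_image] at ha
  obtain ⟨⟨x, v⟩, hq, rfl⟩ := ha
  rw [Finset.mem_product] at hq
  have hv := hq.2
  unfold VV at hv
  rw [Finset.mem_filter, Finset.mem_Ico] at hv
  obtain ⟨⟨h1, h2⟩, _⟩ := hv
  unfold el
  simp only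
  have hc := code_lt s w x
  constructor
  · have h3 : Nj (sl s) * vlo s = Nj (sk s) := Nat.mul_div_cancel' (Nj_dvd (sl_lt_sk s).le)
    calc Nj (sk s) = Nj (sl s) * vlo s := h3.symm
      _ ≤ Nj (sl s) * v := Nat.mul_le_mul_left _ h1
      _ ≤ _ := Nat.le_add_left _ _
  · have h4 : Nj (sl s) * vhi s ≤ Nj (sk (s + 1)) - Nj (se s) := Nat.mul_div_le _ _
    have h5 : Nj (se s) ≤ Nj (sk (s + 1)) := Nj_mono (le_trans (se_le_sk s) (sk_lt s).le)
    have h6 : Nj (sl s) * v ≤ Nj (sl s) * vhi s := Nat.mul_le_mul_left _ h2.le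
    omega

/-! ## number of window elements -/

theorem Mk_bkey (s L b : ℕ) : Mk (s, 3, ![L, b, 0]) = 2 ^ L := by
  unfold Mk
  simp

theorem level_mem (s : ℕ) (w : Key → ℕ) (hw : ∀ k, w k < Mk k) (L b : ℕ) (h1 : 2 ^ L ≤ b)
    (h2 : b < 4 * 2 ^ L) (hlo : vlo s ≤ 4 ^ L) (hhi : 4 ^ (L + 1) ≤ vhi s) :
    b * 2 ^ L + w (s, 3, ![L, b, 0]) ∈ VV s w ∧
      b * 2 ^ L + w (s, 3, ![L, b, 0]) < 4 ^ (L + 1) ∧
      (b * 2 ^ L + w (s, 3, ![L, b, 0])) / 2 ^ L = b := by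
  set r := w (s, 3, ![L, b, 0]) with hr
  have hr1 : r < 2 ^ L := by
    have := hw (s, 3, ![L, b, 0])
    rwa [Mk_bkey] at this
  have h4 : (4 : ℕ) ^ L = 2 ^ L * 2 ^ L := by
    rw [← mul_pow]
    norm_num
  have hlow : 4 ^ L ≤ b * 2 ^ L + r := by
    rw [h4]
    exact le_trans (Nat.mul_le_mul_right _ h1) (Nat.le_add_right _ _)
  have hup : b * 2 ^ L + r < 4 ^ (L + 1) := by
    rw [pow_succ, h4]
    have h5 : (b + 1) * 2 ^ L ≤ (4 * 2 ^ L) * 2 ^ L := Nat.mul_le_mul_right _ h2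
    nlinarith
  have hlev : lev (b * 2 ^ L + r) = L := by
    unfold lev
    rw [Nat.log_eq_iff]
    · exact ⟨hlow, hup⟩
    · right
      refine ⟨by norm_num, ?_⟩
      have : 0 < (4 : ℕ) ^ L := by positivity
      omega
  have hdiv : (b * 2 ^ L + r) / 2 ^ L = b := by
    rw [mul_comm, Nat.mul_add_div (by positivity), Nat.div_eq_of_lt hr1, add_zero]
  have hmod : (b * 2 ^ L + r) % 2 ^ L = r := by
    rw [mul_comm, Nat.mul_add_mod, Nat.mod_eq_of_lt hr1]
  refine ⟨?_, hup, hdiv⟩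
  unfold VV
  rw [Finset.mem_filter, Finset.mem_Ico]
  refine ⟨⟨by omega, by omega⟩, ?_⟩
  unfold bkey
  rw [hlev, hmod, hdiv]

/-- many window elements -/
theorem card_V_ge (s : ℕ) (w : Key → ℕ) (hw : ∀ k, w k < Mk k) (L : ℕ)
    (hlo : vlo s ≤ 4 ^ L) (hhi : 4 ^ (L + 1) ≤ vhi s) :
    3 * 2 ^ L ≤ ((VV s w).filter (fun v => v < 4 ^ (L + 1))).card := by
  have h : ((Finset.Ico (2 ^ L) (4 * 2 ^ L)).image
      (fun b => b * 2 ^ L + w (s, 3, ![L, b, 0]))).card = 3 * 2 ^ L := by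
    rw [Finset.card_image_of_injOn, Nat.card_Ico]
    · omega
    · intro b hb c hc hbc
      rw [Finset.coe_Ico, Set.mem_Ico] at hb hc
      have h1 := (level_mem s w hw L b hb.1 hb.2 hlo hhi).2.2
      have h2 := (level_mem s w hw L c hc.1 hc.2 hlo hhi).2.2
      simp only at hbc
      rw [← h1, ← h2, hbc]
  rw [← h]
  apply Finset.card_le_card
  intro v hv
  rw [Finset.mem_image] at hv
  obtain ⟨b, hb, rfl⟩ := hv
  rw [Finset.mem_Ico] at hb
  have h3 := level_mem s w hw L b hb.1 hb.2 hlo hhi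
  rw [Finset.mem_filter]
  exact ⟨h3.1, h3.2.1⟩

/-- C2: many window elements below the level `κ` -/
theorem card_V_below (s : ℕ) (w : Key → ℕ) (hw : ∀ k, w k < Mk k) (κ : ℕ) (h1 : sk s < κ)
    (h2 : κ ≤ sk (s + 1)) :
    (1 / 2 : ℝ) * Real.sqrt ((Nj κ : ℝ) / (Nj (sl s) : ℝ)) ≤
      (((VV s w).filter (fun v => Nj (se s) + Nj (sl s) * v ≤ Nj κ)).card : ℝ) := by
  set V := (Nj κ - Nj (se s)) / Nj (sl s) with hV
  have hNl := Nj_pos (sl s)
  have he : Nj (se s) * 1000003 ≤ Nj κ := Nj_lt (lt_of_le_of_lt (se_le_sk s) h1)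
  have hk : Nj (sk s) * 1000003 ≤ Nj κ := Nj_lt h1
  have hl : Nj (sl s) * 1000003 ≤ Nj κ := Nj_lt (lt_trans (sl_lt_sk s) h1)
  have hVle : V ≤ vhi s := by
    unfold vhi
    rw [hV]
    apply Nat.div_le_div_right
    have := Nj_mono h2
    omega
  have hVle2 : Nj (sl s) * V ≤ Nj κ - Nj (se s) := Nat.mul_div_le _ _
  have hVge : Nj κ - Nj (se s) < Nj (sl s) * (V + 1) := by
    have := Nat.lt_mul_div_succ (Nj κ - Nj (se s)) hNl
    simpa [hV, Nat.add_comm] using this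
  -- V is large
  have hV0 : 16 ≤ V := by
    by_contra hcon
    push Not at hcon
    have : Nj (sl s) * (V + 1) ≤ Nj (sl s) * 16 := Nat.mul_le_mul_left _ (by omega)
    omega
  -- choose the level
  obtain ⟨L, hL1, hL2⟩ : ∃ L : ℕ, 4 ^ (L + 1) ≤ V ∧ V < 4 ^ (L + 2) := by
    have h3 : 1 ≤ Nat.log 4 V := Nat.log_pos (by norm_num) (by omega)
    refine ⟨Nat.log 4 V - 1, ?_, ?_⟩
    · have : Nat.log 4 V - 1 + 1 = Nat.log 4 V := by omega
      rw [this]
      exact Nat.pow_log_le_self 4 (by omega)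
    · have : Nat.log 4 V - 1 + 2 = Nat.log 4 V + 1 := by omega
      rw [this]
      exact Nat.lt_pow_succ_log_self (by norm_num) V
  have h16 : (4 : ℕ) ^ (L + 2) = 16 * 4 ^ L := by rw [pow_add]; ring
  rw [h16] at hL2
  have hlo : vlo s ≤ 4 ^ L := by
    have h3 : Nj (sl s) * vlo s = Nj (sk s) := Nat.mul_div_cancel' (Nj_dvd (sl_lt_sk s).le)
    by_contra hcon
    push Not at hcon
    have h4 : V + 1 ≤ 16 * vlo s := by omega
    have h5 : Nj (sl s) * (V + 1) ≤ 16 * Nj (sk s) := by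
      calc Nj (sl s) * (V + 1) ≤ Nj (sl s) * (16 * vlo s) := Nat.mul_le_mul_left _ h4
        _ = 16 * (Nj (sl s) * vlo s) := by ring
        _ = _ := by rw [h3]
    omega
  have hcard := card_V_ge s w hw L hlo (le_trans hL1 hVle)
  have hsub : ((VV s w).filter (fun v => v < 4 ^ (L + 1))).card ≤
      ((VV s w).filter (fun v => Nj (se s) + Nj (sl s) * v ≤ Nj κ)).card := by
    apply Finset.card_le_card
    intro v hv
    rw [Finset.mem_filter] at hv ⊢
    refine ⟨hv.1, ?_⟩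
    have h6 : Nj (sl s) * v ≤ Nj (sl s) * V := Nat.mul_le_mul_left _ (by omega)
    omega
  set m := ((VV s w).filter (fun v => Nj (se s) + Nj (sl s) * v ≤ Nj κ)).card with hm
  have hm1 : 3 * 2 ^ L ≤ m := le_trans hcard hsub
  -- real estimate
  have hq : (Nj κ : ℝ) / (Nj (sl s) : ℝ) ≤ 4 * (m : ℝ) ^ 2 := by
    rw [div_le_iff₀ (by exact_mod_cast hNl)]
    have h7 : Nj κ ≤ 2 * (Nj (sl s) * (16 * 4 ^ L)) := by
      have h8 : Nj (sl s) * (V + 1) ≤ Nj (sl s) * (16 * 4 ^ L) := Nat.mul_le_mul_left _ (by omega)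
      omega
    have h9 : 36 * 4 ^ L ≤ 4 * m ^ 2 := by
      have h10 : (3 * 2 ^ L) ^ 2 ≤ m ^ 2 := Nat.pow_le_pow_left hm1 2
      have h11 : (3 * 2 ^ L) ^ 2 = 9 * 4 ^ L := by
        rw [mul_pow, ← pow_mul, mul_comm L 2, pow_mul]
        norm_num
      omega
    have h12 : Nj κ ≤ 4 * m ^ 2 * Nj (sl s) := by
      calc Nj κ ≤ 2 * (Nj (sl s) * (16 * 4 ^ L)) := h7
        _ = (32 * 4 ^ L) * Nj (sl s) := by ring
        _ ≤ (4 * m ^ 2) * Nj (sl s) := Nat.mul_le_mul_right _ (by omega)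
    exact_mod_cast h12
  have h13 : Real.sqrt ((Nj κ : ℝ) / (Nj (sl s) : ℝ)) ≤ 2 * (m : ℝ) := by
    rw [Real.sqrt_le_left (by positivity)]
    calc (Nj κ : ℝ) / (Nj (sl s) : ℝ) ≤ 4 * (m : ℝ) ^ 2 := hq
      _ = (2 * (m : ℝ)) ^ 2 := by ring
  linarith

end Pool.Agent.Helper50.ET
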