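import Pool.Agent.Helper50.ET.VCount

/-!
# T4', block C: assembly of the lower bound for the counting function
-/

namespace Pool.Agent.Helper50.ET

open Finset Pool.Agent.Helper27.T4 Pool.Agent.Helper5.ET

/-- `count_block` from C1 (many triples of primes) and C3 (bounded multiplicity) -/
theorem count_of
    (C1 : ∃ (c : ℝ) (s0 : ℕ), 0 < c ∧ ∀ s ≥ s0,
      c * Real.sqrt (Nj (sl s)) / (sl s : ℝ) ^ 3 ≤ ((XX s).card : ℝ))
    (C3 : ∀ (s : ℕ) (w : Key → ℕ) (m : ℕ),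
      ((XX s ×ˢ VV s w).filter (fun q => el s w q.1 q.2 = m)).card ≤ (10 ^ 7) ^ 3) :
    ∃ (c : ℝ) (s0 : ℕ), 0 < c ∧ ∀ s ≥ s0, ∀ w : Key → ℕ, (∀ k, w k < Mk k) →
    ∀ κ, sk s < κ → κ ≤ sk (s + 1) →
      c * Real.sqrt (Nj κ) / (sl s : ℝ) ^ 3 ≤ (((AA s w).filter (fun a => a < Nj κ)).card : ℝ) := by
  obtain ⟨c, s0, hc, h1⟩ := C1
  refine ⟨c / (2 * (10 ^ 7) ^ 3), s0, by positivity, ?_⟩
  intro s hs w hw κ hκ1 hκ2
  have hX := h1 s hs
  have hV := card_V_below s w hw κ hκ1 hκ2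
  set W := (VV s w).filter (fun v => Nj (se s) + Nj (sl s) * v ≤ Nj κ) with hW
  -- the map (x, v) ↦ el has bounded fibres
  have hcard : (XX s ×ˢ W).card ≤ (10 ^ 7) ^ 3 *
      ((AA s w).filter (fun a => a < Nj κ)).card := by
    apply Finset.card_le_mul_card_image_of_maps_to (f := fun q => el s w q.1 q.2)
    · intro q hq
      rw [Finset.mem_product] at hq
      obtain ⟨hq1, hq2⟩ := hq
      rw [hW, Finset.mem_filter] at hq2
      rw [Finset.mem_filter]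
      refine ⟨?_, ?_⟩
      · unfold AA
        rw [Finset.mem_image]
        exact ⟨q, Finset.mem_product.mpr ⟨hq1, hq2.1⟩, rfl⟩
      · unfold el
        have := code_lt s w q.1
        omega
    · intro m _
      refine le_trans (Finset.card_le_card ?_) (C3 s w m)
      intro q hq
      rw [Finset.mem_filter, Finset.mem_product] at hq
      rw [Finset.mem_filter, Finset.mem_product]
      refine ⟨⟨hq.1.1, ?_⟩, hq.2⟩
      have := hq.1.2
      rw [hW, Finset.mem_filter] at this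
      exact this.1
  rw [Finset.card_product] at hcard
  have hcardR : ((XX s).card : ℝ) * (W.card : ℝ) ≤ (10 ^ 7) ^ 3 *
      (((AA s w).filter (fun a => a < Nj κ)).card : ℝ) := by exact_mod_cast hcard
  have hNl : (0 : ℝ) < Nj (sl s) := by exact_mod_cast Nj_pos (sl s)
  have hprod : c * Real.sqrt (Nj (sl s)) / (sl s : ℝ) ^ 3 *
      ((1 / 2 : ℝ) * Real.sqrt ((Nj κ : ℝ) / (Nj (sl s) : ℝ))) ≤
      ((XX s).card : ℝ) * (W.card : ℝ) :=
    mul_le_mul hX hV (by positivity) (by positivity)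
  have hsq : Real.sqrt (Nj (sl s)) * Real.sqrt ((Nj κ : ℝ) / (Nj (sl s) : ℝ)) =
      Real.sqrt (Nj κ) := by
    rw [← Real.sqrt_mul hNl.le]
    congr 1
    field_simp
  have heq : c * Real.sqrt (Nj (sl s)) / (sl s : ℝ) ^ 3 *
      ((1 / 2 : ℝ) * Real.sqrt ((Nj κ : ℝ) / (Nj (sl s) : ℝ))) =
      c / 2 * Real.sqrt (Nj κ) / (sl s : ℝ) ^ 3 := by
    rw [← hsq]
    ring
  rw [heq] at hprod
  have h5 : c / 2 * Real.sqrt (Nj κ) / (sl s : ℝ) ^ 3 ≤ (10 ^ 7) ^ 3 *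
      (((AA s w).filter (fun a => a < Nj κ)).card : ℝ) := le_trans hprod hcardR
  have h6 : c / (2 * (10 ^ 7) ^ 3) * Real.sqrt (Nj κ) / (sl s : ℝ) ^ 3 =
      (c / 2 * Real.sqrt (Nj κ) / (sl s : ℝ) ^ 3) / (10 ^ 7) ^ 3 := by
    field_simp
  rw [h6, div_le_iff₀ (by positivity)]
  linarith

end Pool.Agent.Helper50.ET
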